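import Pool.Agent.H72.BBG.Es

/-!
# Project BB: the complex of the level sets and the complex of the links

`PC G k`: the pairs `(σ, j)` of a clique `σ` with `k` vertices and `j < k` (the level crossed by the
cube), `PE G k`: the pairs `(v, ρ)` of a vertex `v` and a clique `ρ` of its link with `k - 1` vertices.
The chain map `Psi` from the first complex to the second one is injective in every degree.
-/

set_option autoImplicit false
set_option linter.unusedSectionVars false

namespace Pool.Agent.H72.BBG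

open Finset
open Pool.Agent.H4.Atiyah Pool.Agent.H78.RA

section

open Classical

variable {V : Type*} [Fintype V] {Γ : Type*} [Group Γ]

/-- the cells of the level sets -/
def PC (G : SimpleGraph V) (k : ℕ) (p : Finset V × ℕ) : Prop :=
  G.IsClique (p.1 : Set V) ∧ p.1.card = k ∧ p.2 < k

/-- the simplices of the links -/
def PE (G : SimpleGraph V) (k : ℕ) (q : V × Finset V) : Prop :=
  q.1 ∉ q.2 ∧ G.IsClique ((insert q.1 q.2 : Finset V) : Set V) ∧ q.2.card + 1 = k

noncomputable instance instPC (G : SimpleGraph V) (k : ℕ) : Fintype {p // PC G k p} :=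
  have : Finite {p // PC G k p} :=
    Finite.of_injective (β := Finset V × Fin k) (fun p => (p.1.1, ⟨p.1.2, p.2.2.2⟩)) (by
      rintro ⟨⟨σ, j⟩, h⟩ ⟨⟨σ', j'⟩, h'⟩ hh
      simp only [Prod.mk.injEq, Fin.mk.injEq] at hh
      exact Subtype.ext (Prod.ext hh.1 hh.2))
  Fintype.ofFinite _

theorem card_eq (G : SimpleGraph V) (k : ℕ) :
    Fintype.card {p // PC G k p} = Fintype.card {q // PE G k q} := by
  let Q := {σ : Finset V // G.IsClique (σ : Set V) ∧ σ.card = k}
  have e1 : {p // PC G k p} ≃ Q × Fin k :=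
    { toFun := fun p => (⟨p.1.1, p.2.1, p.2.2.1⟩, ⟨p.1.2, p.2.2.2⟩)
      invFun := fun q => ⟨(q.1.1, q.2.1), q.1.2.1, q.1.2.2, q.2.2⟩
      left_inv := fun _ => rfl
      right_inv := fun _ => rfl }
  have e2 : {q // PE G k q} ≃ Σ σ : Q, {v // v ∈ σ.1} :=
    { toFun := fun q => ⟨⟨insert q.1.1 q.1.2, q.2.2.1, by
          rw [card_insert_of_notMem q.2.1, q.2.2.2]⟩, ⟨q.1.1, mem_insert_self _ _⟩⟩
      invFun := fun s => ⟨(s.2.1, s.1.1.erase s.2.1), notMem_erase _ _, by
          rw [insert_erase s.2.2]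
          exact s.1.2.1, by
          rw [card_erase_add_one s.2.2]
          exact s.1.2.2⟩
      left_inv := by
        rintro ⟨⟨v, ρ⟩, h1, h2, h3⟩
        apply Subtype.ext
        exact Prod.ext rfl (erase_insert h1)
      right_inv := by
        rintro ⟨⟨σ, h1, h2⟩, ⟨v, hv⟩⟩
        have h3 : insert v (σ.erase v) = σ := insert_erase hv
        have key : ∀ (σ' : Finset V) (hσ' : σ' = σ) (p : G.IsClique (σ' : Set V) ∧ σ'.card = k)
            (q : v ∈ σ'), HEq (⟨v, q⟩ : {w // w ∈ (⟨σ', p⟩ : Q).1})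
              (⟨v, hv⟩ : {w // w ∈ (⟨σ, h1, h2⟩ : Q).1}) := by
          intro σ' hσ' p q
          subst hσ'
          rfl
        exact Sigma.ext (Subtype.ext h3) (key _ h3 _ _) }
  rw [Fintype.card_congr e1, Fintype.card_congr e2, Fintype.card_prod, Fintype.card_sigma,
    Fintype.card_fin]
  have h1 : ∀ σ : Q, Fintype.card {v // v ∈ σ.1} = k := by
    intro σ
    rw [Fintype.card_coe]
    exact σ.2.2
  rw [Finset.sum_congr rfl fun σ _ => h1 σ, sum_const, smul_eq_mul, card_univ]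

/-- the boundary of the complex of the level sets -/
noncomputable def dC (G : SimpleGraph V) (t : V → Γ) (ν : V → ℕ) (k : ℕ) :
    LL {p // PC G (k + 1) p} Γ →L[ℂ] LL {p // PC G k p} Γ :=
  Sp (PC G (k + 1)) (PC G k) (fun p => p.1ᶜ) (fun p u => (insert u p.1, p.2 + 1))
      (fun p u => sg ν p.1 u • RT (t u))
    - Sp (PC G (k + 1)) (PC G k) (fun p => p.1ᶜ) (fun p u => (insert u p.1, p.2))
      (fun p u => sg ν p.1 u • 1)

/-- the boundary of the complex of the links -/
noncomputable def eE (Γ : Type*) [Group Γ] (G : SimpleGraph V) (ν : V → ℕ) (k : ℕ) :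
    LL {q // PE G (k + 1) q} Γ →L[ℂ] LL {q // PE G k q} Γ :=
  Sp (PE G (k + 1)) (PE G k) (fun q => q.2ᶜ) (fun q u => (q.1, insert u q.2))
    (fun q u => sg ν q.2 u • 1)

/-- the chain map -/
noncomputable def Psi (G : SimpleGraph V) (t : V → Γ) (ν : V → ℕ) (k : ℕ) :
    LL {p // PC G k p} Γ →L[ℂ] LL {q // PE G k q} Γ :=
  Sp (PC G k) (PE G k) (fun _ => range k) (fun q j => (insert q.1 q.2, j))
    (fun q j => (sg ν q.2 q.1 * (-1) ^ j) • es t q.2 j)

theorem eqv_dC (G : SimpleGraph V) (t : V → Γ) (ν : V → ℕ) (k : ℕ) : Eqv (dC G t ν k) :=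
  (eqv_Sp _ _ _ fun _ _ => (eqv_RT _).zsmul _).sub (eqv_Sp _ _ _ fun _ _ => Eqv.one.zsmul _)

theorem eqv_eE (G : SimpleGraph V) (ν : V → ℕ) (k : ℕ) : Eqv (eE Γ G ν k) :=
  eqv_Sp _ _ _ fun _ _ => Eqv.one.zsmul _

theorem eqv_Psi (G : SimpleGraph V) (t : V → Γ) (ν : V → ℕ) (k : ℕ) : Eqv (Psi G t ν k) :=
  eqv_Sp _ _ _ fun _ _ => (eqv_es _ _ _).zsmul _

theorem cpI_dC (G : SimpleGraph V) (t : V → Γ) (ν : V → ℕ) (k : ℕ) (x : LL {p // PC G (k + 1) p} Γ)
    (τ : Finset V) (l : ℕ) (h : PC G k (τ, l)) :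
    cpI (PC G k) (dC G t ν k x) (τ, l) = ∑ u ∈ τᶜ, sg ν τ u •
      (RT (t u) (cpI (PC G (k + 1)) x (insert u τ, l + 1)) - cpI (PC G (k + 1)) x (insert u τ, l)) := by
  unfold dC
  rw [sub_apply, cpI_sub, cpI_Sp _ _ _ _ _ h, cpI_Sp _ _ _ _ _ h, ← sum_sub_distrib]
  apply sum_congr rfl
  intro u _
  rw [smul_sub]
  rfl

theorem cpI_eE (G : SimpleGraph V) (ν : V → ℕ) (k : ℕ) (x : LL {q // PE G (k + 1) q} Γ)
    (v : V) (ρ : Finset V) :
    cpI (PE G k) (eE Γ G ν k x) (v, ρ) = bd ν (fun ρ => cpI (PE G (k + 1)) x (v, ρ)) ρ := by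
  by_cases h : PE G k (v, ρ)
  · unfold eE bd
    rw [cpI_Sp _ _ _ _ _ h]
    rfl
  · rw [cpI_neg _ _ h]
    unfold bd
    symm
    apply sum_eq_zero
    intro u hu
    beta_reduce
    rw [cpI_neg, smul_zero]
    rintro ⟨h1, h2, h3⟩
    apply h
    simp only [mem_insert, not_or] at h1
    refine ⟨h1.2, h2.subset ?_, ?_⟩
    · intro a ha
      simp only [mem_coe, mem_insert] at ha ⊢
      rcases ha with ha | ha
      · exact Or.inl ha
      · exact Or.inr (Or.inr ha)
    · rw [card_insert_of_notMem (mem_compl.1 hu)] at h3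
      show ρ.card + 1 = k
      omega

theorem cpI_Psi (G : SimpleGraph V) (t : V → Γ) (ν : V → ℕ) (k : ℕ) (x : LL {p // PC G k p} Γ)
    (v : V) (ρ : Finset V) (h : PE G k (v, ρ)) :
    cpI (PE G k) (Psi G t ν k x) (v, ρ)
      = sg ν ρ v • alt t ρ k (fun j => cpI (PC G k) x (insert v ρ, j)) := by
  unfold Psi alt
  rw [cpI_Sp _ _ _ _ _ h, smul_sum]
  apply sum_congr rfl
  intro j _
  rw [← mul_smul]
  rfl

theorem cmT_clique (G : SimpleGraph V) (t : V → Γ)
    (hcomm : ∀ u v, G.Adj u v → t u * t v = t v * t u) (σ : Finset V)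
    (hσ : G.IsClique (σ : Set V)) : CmT t σ := by
  intro u hu v hv huv
  exact RT_comm _ _ (hcomm u v (hσ hu hv huv))

theorem sg_swap (ν : V → ℕ) (hν : Function.Injective ν) (ρ : Finset V) (u v : V) (hu : u ∉ ρ)
    (hv : v ∉ ρ) (huv : u ≠ v) :
    sg ν ρ u * sg ν (insert u ρ) v = - (sg ν ρ v * sg ν (insert v ρ) u) := by
  rw [sg_insert ν ρ u v hv, sg_insert ν ρ v u hu]
  have hne : ν u ≠ ν v := fun h => huv (hν h)
  rcases lt_or_gt_of_ne hne with h | h
  · rw [if_pos h, if_neg (not_lt.2 h.le)]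
    ring
  · rw [if_neg (not_lt.2 h.le), if_pos h]
    ring

/-- the map `Psi` is a chain map -/
theorem chain_map_Psi (G : SimpleGraph V) (t : V → Γ)
    (hcomm : ∀ u v, G.Adj u v → t u * t v = t v * t u) (ν : V → ℕ) (hν : Function.Injective ν)
    (k : ℕ) (x : LL {p // PC G (k + 1) p} Γ) :
    eE Γ G ν k (Psi G t ν (k + 1) x) = Psi G t ν k (dC G t ν k x) := by
  apply cpI_ext
  rintro ⟨v, ρ⟩ h
  obtain ⟨hv, hcl, hcard⟩ := h
  rw [cpI_eE, cpI_Psi _ _ _ _ _ _ _ ⟨hv, hcl, hcard⟩]
  unfold bd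
  simp only at hv hcl hcard
  -- the right side
  have h1 : alt t ρ k (fun j => cpI (PC G k) (dC G t ν k x) (insert v ρ, j))
      = ∑ u ∈ (insert v ρ)ᶜ, sg ν (insert v ρ) u •
        (alt t ρ k (fun j => RT (t u) (cpI (PC G (k + 1)) x (insert u (insert v ρ), j + 1)))
          - alt t ρ k (fun j => cpI (PC G (k + 1)) x (insert u (insert v ρ), j))) := by
    unfold alt
    simp_rw [← sum_sub_distrib, smul_sum]
    rw [sum_comm]
    apply sum_congr rfl
    intro j hj
    have h2 : PC G k (insert v ρ, j) := ⟨hcl, by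
      show (insert v ρ).card = k
      rw [card_insert_of_notMem hv, hcard], mem_range.1 hj⟩
    rw [cpI_dC G t ν k x _ _ h2, map_sum, smul_sum]
    apply sum_congr rfl
    intro u _
    rw [map_zsmul, map_sub, ← smul_sub, smul_comm]
  rw [h1, smul_sum]
  -- the left side
  have h3 : (ρᶜ : Finset V) = insert v (insert v ρ)ᶜ := by
    ext a
    simp only [mem_compl, mem_insert, not_or]
    constructor
    · intro ha
      by_cases hav : a = v
      · exact Or.inl hav
      · exact Or.inr ⟨hav, ha⟩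
    · rintro (rfl | ha)
      · exact hv
      · exact ha.2
  rw [h3, sum_insert (by simp)]
  beta_reduce
  rw [cpI_neg _ _ (by
    rintro ⟨h4, -⟩
    exact h4 (mem_insert_self _ _)), smul_zero, zero_add]
  apply sum_congr rfl
  intro u hu
  rw [mem_compl, mem_insert, not_or] at hu
  obtain ⟨huv, hu⟩ := hu
  have hcm : insert v (insert u ρ) = insert u (insert v ρ) := Finset.insert_comm _ _ _
  by_cases hcl' : G.IsClique ((insert u (insert v ρ) : Finset V) : Set V)
  · have h5 : PE G (k + 1) (v, insert u ρ) := by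
      refine ⟨?_, ?_, ?_⟩
      · simp only [mem_insert, not_or]
        exact ⟨fun h => huv h.symm, hv⟩
      · show G.IsClique ((insert v (insert u ρ) : Finset V) : Set V)
        rw [hcm]
        exact hcl'
      · show (insert u ρ).card + 1 = k + 1
        rw [card_insert_of_notMem hu, hcard]
    rw [cpI_Psi _ _ _ _ _ _ _ h5, hcm]
    have hC : CmT t (insert u ρ) := (cmT_clique G t hcomm _ hcl').mono (by
      intro a ha
      simp only [mem_insert] at ha ⊢
      rcases ha with ha | ha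
      · exact Or.inl ha
      · exact Or.inr (Or.inr ha))
    rw [alt_insert t ρ u hu hC]
    have h6 : alt t ρ (k + 1) (fun j => cpI (PC G (k + 1)) x (insert u (insert v ρ), j))
        = alt t ρ k (fun j => cpI (PC G (k + 1)) x (insert u (insert v ρ), j)) := by
      unfold alt
      rw [sum_range_succ, es_big t ρ k (by omega)]
      simp
    rw [h6, ← mul_smul, ← mul_smul, sg_swap ν hν ρ u v hu hv huv, neg_smul, ← smul_neg, neg_sub]
  · have h5 : ∀ j, cpI (PC G (k + 1)) x (insert u (insert v ρ), j) = 0 := by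
      intro j
      apply cpI_neg
      rintro ⟨h6, -⟩
      exact hcl' h6
    rw [cpI_neg _ _ (by
      rintro ⟨-, h6, -⟩
      apply hcl'
      rw [← hcm]
      exact h6)]
    simp only [h5]
    unfold alt
    simp

/-- `Psi` is injective -/
theorem Psi_inj (G : SimpleGraph V) (t : V → Γ)
    (hcomm : ∀ u v, G.Adj u v → t u * t v = t v * t u)
    (hord : ∀ u v, G.Adj u v → ∀ n : ℕ, 0 < n → (t u * (t v)⁻¹) ^ n ≠ 1) (ν : V → ℕ)
    (k : ℕ) (x : LL {p // PC G k p} Γ) (hx : Psi G t ν k x = 0) : x = 0 := by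
  apply cpI_ext
  rintro ⟨σ, j⟩ ⟨hcl, hcard, hj⟩
  simp only at hcl hcard hj
  subst hcard
  rw [cpI_zero]
  refine alt_inj t σ (cmT_clique G t hcomm σ hcl) ?_ (fun j => cpI (PC G σ.card) x (σ, j)) ?_ j hj
  · intro u hu v hv huv y hy
    exact RT_inj _ _ (hord u v (hcl hu hv huv)) y hy
  · intro v hv
    have h1 : PE G σ.card (v, σ.erase v) := by
      refine ⟨notMem_erase _ _, ?_, ?_⟩
      · show G.IsClique ((insert v (σ.erase v) : Finset V) : Set V)
        rw [insert_erase hv]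
        exact hcl
      · show (σ.erase v).card + 1 = σ.card
        rw [card_erase_add_one hv]
    have h2 := cpI_Psi G t ν σ.card x v _ h1
    rw [hx, cpI_zero, insert_erase hv] at h2
    have h3 : sg ν (σ.erase v) v • (sg ν (σ.erase v) v •
        alt t (σ.erase v) σ.card (fun j => cpI (PC G σ.card) x (σ, j)))
          = alt t (σ.erase v) σ.card (fun j => cpI (PC G σ.card) x (σ, j)) := by
      rw [← mul_smul]
      unfold sg
      rw [← pow_add, ← two_mul, pow_mul, neg_one_sq, one_pow, one_smul]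
    rw [← h3, ← h2, smul_zero]

end

end Pool.Agent.H72.BBG
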