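import Pool.Agent.H78.RA.Artin

/-!
# Project BB: definitions

The level set at height `1/2` of the universal cover of the Salvetti complex of a right-angled Artin
group. The Bestvina–Brady group, the kernel of the exponent sum `aexp G`, acts on it freely and
cocompactly.
-/

set_option autoImplicit false

namespace Pool.Agent.H72.BBG

open Finset
open Pool.Agent.H78.RA

section

variable {V : Type}

/-- the height (exponent sum) of an element of the right-angled Artin group -/
def hgt (G : SimpleGraph V) (g : Artin G) : ℤ := Multiplicative.toAdd (aexp G g)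

/-- The vertices of the cube `(σ, g)` have the heights `hgt g, …, hgt g + |σ|`; the cube crosses the
level `1/2` if one of them is positive and one is not positive. -/
def Cross (G : SimpleGraph V) (σ : Finset V) (g : Artin G) : Prop :=
  hgt G g ≤ 0 ∧ 0 < hgt G g + σ.card

instance (G : SimpleGraph V) (σ : Finset V) (g : Artin G) : Decidable (Cross G σ g) :=
  inferInstanceAs (Decidable (_ ∧ _))

/-- Cellular `ℓ²`-chains of degree `i` of the level set at height `1/2`. The cells of dimension `i` of
the level set are its intersections with the cubes `(σ, g)` of dimension `i + 1` which it crosses;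
`f σ g` is the coefficient of this cell. -/
structure IsL2ChainB (G : SimpleGraph V) (i : ℕ) (f : Finset V → Artin G → ℂ) : Prop where
  supp : ∀ σ g, f σ g ≠ 0 → G.IsClique (σ : Set V) ∧ σ.card = i + 1 ∧ Cross G σ g
  l2 : ∀ σ, Summable fun g => ‖f σ g‖ ^ 2

variable [Fintype V] [DecidableEq V]

/-- The cellular boundary of the level set: the faces of the cell of a cube `(σ, g)` are the cells of
the faces of the cube which cross the level. -/
noncomputable def bdB {G : SimpleGraph V} (ν : V → ℕ) (f : Finset V → Artin G → ℂ) :
    Finset V → Artin G → ℂ :=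
  fun τ g => if Cross G τ g then bdA ν f τ g else 0

/-- The reduced `ℓ²`-homology of the level set at height `1/2` vanishes in degree `i`: every
`ℓ²`-cycle is an `ℓ²`-limit of boundaries of `ℓ²`-chains. -/
def L2ZeroLevel (G : SimpleGraph V) (i : ℕ) : Prop :=
  ∀ ν : V → ℕ, Function.Injective ν → ∀ z : Finset V → Artin G → ℂ, IsL2ChainB G i z →
    bdB ν z = 0 → ∀ ε : ℝ, 0 < ε → ∃ y : Finset V → Artin G → ℂ, IsL2ChainB G (i + 1) y ∧
      ∑ σ, ∑' g, ‖z σ g - bdB ν y σ g‖ ^ 2 < ε

end

end Pool.Agent.H72.BBG
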