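import Pool.Agent.H72.BBG.Sp

/-!
# Project BB: elementary symmetric functions of commuting elements
-/

set_option autoImplicit false
set_option linter.unusedSectionVars false

namespace Pool.Agent.H72.BBG

open Finset
open Pool.Agent.H4.Atiyah Pool.Agent.H78.RA

section

open Classical

variable {V : Type*} {Γ : Type*} [Group Γ]

/-- right multiplication by `s` -/
noncomputable def RT (s : Γ) : BB Γ := Eop () () s

theorem RT_apply (s : Γ) (x : LL Unit Γ) (g : Γ) : RT s x ((), g) = x ((), g * s⁻¹) := by
  unfold RT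
  rw [Eop_apply, if_pos rfl]

theorem eqv_RT (s : Γ) : Eqv (RT s) := eqv_Eop () () s

theorem RT_comm (s t : Γ) (h : s * t = t * s) : Commute (RT s) (RT t) := by
  show RT s * RT t = RT t * RT s
  ext1 x
  ext ⟨-, g⟩
  show (RT s (RT t x) : LL Unit Γ) ((), g) = (RT t (RT s x) : LL Unit Γ) ((), g)
  rw [RT_apply, RT_apply, RT_apply, RT_apply, mul_assoc, mul_assoc, ← mul_inv_rev, ← mul_inv_rev, h]

/-- right multiplication by `s - t` is injective if `s t⁻¹` has infinite order -/
theorem RT_inj (s t : Γ) (h : ∀ n : ℕ, 0 < n → (s * t⁻¹) ^ n ≠ 1) (x : LL Unit Γ)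
    (hx : RT s x = RT t x) : x = 0 := by
  apply Nt_inj (s * t⁻¹) h
  apply ev_ext
  intro g
  show Nt (s * t⁻¹) x ((), g) = 0
  rw [Nt_apply, mul_inv_rev, inv_inv, sub_eq_zero]
  have h1 := congrArg (fun y : LL Unit Γ => y ((), g * t)) hx
  simp only [RT_apply, mul_inv_cancel_right] at h1
  rw [← mul_assoc, h1]

variable (t : V → Γ)

/-- the operators for the elements of a set commute -/
def CmT (σ : Finset V) : Prop := (σ : Set V).Pairwise (Function.onFun Commute fun v => RT (t v))

variable {t}

theorem CmT.mono {σ τ : Finset V} (h : CmT t σ) (hs : τ ⊆ σ) : CmT t τ := by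
  intro a ha b hb hab
  exact h (mem_coe.2 (hs (mem_coe.1 ha))) (mem_coe.2 (hs (mem_coe.1 hb))) hab

variable (t)

/-- the product of the operators -/
noncomputable def pT (σ : Finset V) : BB Γ :=
  if h : CmT t σ then σ.noncommProd (fun v => RT (t v)) h else 1

theorem pT_insert (σ : Finset V) (v : V) (hv : v ∉ σ) (h : CmT t (insert v σ)) :
    pT t (insert v σ) = pT t σ * RT (t v) := by
  unfold pT
  rw [dif_pos h, dif_pos (h.mono (subset_insert _ _)),
    Finset.noncommProd_insert_of_notMem' _ _ _ h hv]

theorem pT_empty : pT t (∅ : Finset V) = 1 := by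
  unfold pT
  have h : CmT t (∅ : Finset V) := by
    intro a ha
    simp at ha
  rw [dif_pos h, Finset.noncommProd_empty]

theorem eqv_pT (σ : Finset V) : Eqv (pT t σ) := by
  by_cases h : CmT t σ
  · induction σ using Finset.induction_on with
    | empty => rw [pT_empty]; exact Eqv.one
    | insert v σ hv ih =>
      rw [pT_insert t σ v hv h]
      exact (ih (h.mono (subset_insert _ _))).comp (eqv_RT _)
  · unfold pT
    rw [dif_neg h]
    exact Eqv.one

theorem pT_comm (σ : Finset V) (u : V) (h : CmT t (insert u σ)) : Commute (pT t σ) (RT (t u)) := by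
  unfold pT
  split_ifs with h'
  · refine (Finset.noncommProd_commute _ _ _ _ fun w hw => ?_).symm
    by_cases hwu : u = w
    · subst hwu
      exact Commute.refl _
    · exact h (by simp) (by simp [hw]) hwu
  · exact Commute.one_left _

/-- the elementary symmetric functions -/
noncomputable def es (σ : Finset V) (j : ℕ) : BB Γ := ∑ s ∈ σ.powersetCard j, pT t s

theorem eqv_es (σ : Finset V) (j : ℕ) : Eqv (es t σ j) := Eqv.sum _ _ fun _ _ => eqv_pT _ _

theorem es_zero (σ : Finset V) : es t σ 0 = 1 := by
  unfold es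
  rw [powersetCard_zero, sum_singleton, pT_empty]

theorem es_big (σ : Finset V) (j : ℕ) (h : σ.card < j) : es t σ j = 0 := by
  unfold es
  rw [powersetCard_eq_empty.2 h, sum_empty]

theorem es_insert (σ : Finset V) (u : V) (hu : u ∉ σ) (h : CmT t (insert u σ)) (j : ℕ) :
    es t (insert u σ) (j + 1) = es t σ (j + 1) + es t σ j * RT (t u) := by
  unfold es
  rw [powersetCard_succ_insert hu, sum_union, sum_image, sum_mul]
  · congr 1
    apply sum_congr rfl
    intro s hs
    rw [mem_powersetCard] at hs
    rw [pT_insert t s u (fun h' => hu (hs.1 h')) (h.mono (insert_subset_insert _ hs.1))]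
  · intro a ha b hb hab
    rw [mem_coe, mem_powersetCard] at ha hb
    rw [← erase_insert (fun h' => hu (ha.1 h')), ← erase_insert (fun h' => hu (hb.1 h')), hab]
  · rw [disjoint_left]
    intro a ha hb
    rw [mem_powersetCard] at ha
    obtain ⟨b, _, rfl⟩ := mem_image.1 hb
    exact hu (ha.1 (mem_insert_self _ _))

theorem es_comm (σ : Finset V) (u : V) (h : CmT t (insert u σ)) (j : ℕ) :
    Commute (es t σ j) (RT (t u)) := by
  unfold es
  apply Commute.sum_left
  intro s hs
  rw [mem_powersetCard] at hs
  exact pT_comm t s u (h.mono (insert_subset_insert _ hs.1))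

/-- the alternating sum -/
noncomputable def alt (σ : Finset V) (k : ℕ) (x : ℕ → LL Unit Γ) : LL Unit Γ :=
  ∑ j ∈ range k, ((-1) ^ j : ℤ) • es t σ j (x j)

theorem alt_insert (σ : Finset V) (u : V) (hu : u ∉ σ) (h : CmT t (insert u σ)) (x : ℕ → LL Unit Γ)
    (k : ℕ) : alt t (insert u σ) (k + 1) x
      = alt t σ (k + 1) x - alt t σ k (fun j => RT (t u) (x (j + 1))) := by
  unfold alt
  rw [sum_range_succ', sum_range_succ', es_zero, es_zero, add_sub_right_comm, ← sum_sub_distrib]
  congr 1
  apply sum_congr rfl
  intro j _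
  rw [es_insert t σ u hu h, pow_succ, mul_neg, mul_one, neg_smul, neg_smul]
  rw [show (es t σ (j + 1) + es t σ j * RT (t u)) (x (j + 1))
    = es t σ (j + 1) (x (j + 1)) + es t σ j (RT (t u) (x (j + 1))) from rfl, smul_add]
  abel

theorem alt_RT (σ : Finset V) (u : V) (h : CmT t (insert u σ)) (x : ℕ → LL Unit Γ)
    (k : ℕ) : alt t σ k (fun j => RT (t u) (x j)) = RT (t u) (alt t σ k x) := by
  unfold alt
  rw [map_sum]
  apply sum_congr rfl
  intro j _
  rw [map_zsmul]
  congr 1
  exact congrArg (fun A : BB Γ => A (x j)) (es_comm t σ u h j).eq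

/-- the matrix of the elementary symmetric functions is injective -/
theorem alt_inj (σ : Finset V) (hC : CmT t σ)
    (hd : ∀ u ∈ σ, ∀ v ∈ σ, u ≠ v → ∀ y : LL Unit Γ, RT (t u) y = RT (t v) y → y = 0)
    (x : ℕ → LL Unit Γ) (hx : ∀ v ∈ σ, alt t (σ.erase v) σ.card x = 0) :
    ∀ j < σ.card, x j = 0 := by
  induction σ using Finset.induction_on generalizing x with
  | empty =>
    intro j hj
    rw [card_empty] at hj
    exact absurd hj (Nat.not_lt_zero _)
  | insert u σ hu ih =>
    rw [card_insert_of_notMem hu] at hx ⊢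
    have h1 : alt t σ (σ.card + 1) x = 0 := by
      have := hx u (mem_insert_self _ _)
      rwa [erase_insert hu] at this
    have h2 : ∀ v ∈ σ, alt t (σ.erase v) σ.card (fun j => x (j + 1)) = 0 := by
      intro v hv
      have hne : u ≠ v := fun h => hu (h ▸ hv)
      have hu' : u ∉ σ.erase v := fun h => hu (mem_of_mem_erase h)
      have e1 : (insert u σ).erase v = insert u (σ.erase v) := by
        rw [erase_insert_of_ne hne]
      have e2 : insert v (σ.erase v) = σ := insert_erase hv
      have c1 : CmT t (insert u (σ.erase v)) :=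
        hC.mono (insert_subset_insert _ (erase_subset _ _))
      have c2 : CmT t (insert v (σ.erase v)) := by
        rw [e2]
        exact hC.mono (subset_insert _ _)
      have h3 := hx v (mem_insert_of_mem hv)
      rw [e1, alt_insert t _ u hu' c1] at h3
      have h4 := h1
      rw [← e2, alt_insert t _ v (notMem_erase _ _) c2, e2] at h4
      rw [alt_RT t _ u c1] at h3
      rw [alt_RT t _ v c2] at h4
      apply hd u (mem_insert_self _ _) v (mem_insert_of_mem hv) hne
      have h5 := sub_eq_zero.1 h3
      have h6 := sub_eq_zero.1 h4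
      rw [← h5, ← h6]
    have h3 := ih (hC.mono (subset_insert _ _))
      (fun a ha b hb => hd a (mem_insert_of_mem ha) b (mem_insert_of_mem hb)) _ h2
    have h4 : x 0 = 0 := by
      unfold alt at h1
      rw [sum_range_succ', sum_eq_zero, zero_add, es_zero, pow_zero, one_smul] at h1
      · exact h1
      · intro j hj
        rw [h3 j (mem_range.1 hj), map_zero, smul_zero]
    intro j hj
    rcases Nat.eq_zero_or_pos j with rfl | hj'
    · exact h4
    · obtain ⟨l, rfl⟩ : ∃ l, j = l + 1 := ⟨j - 1, by omega⟩
      exact h3 l (by omega)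

end

end Pool.Agent.H72.BBG
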