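import Pool.Agent.H72.BBG.Op
import Pool.Agent.H72.BBG.Defs

/-!
# Project BB: the comparison, with functions
-/

set_option autoImplicit false
set_option linter.unusedSectionVars false

namespace Pool.Agent.H72.BBG

open Finset
open Pool.Agent.H4.Atiyah Pool.Agent.H78.RA

section Hgt

variable {V : Type} (G : SimpleGraph V)

theorem hgt_mul (g h : Artin G) : hgt G (g * h) = hgt G g + hgt G h := by
  unfold hgt
  rw [map_mul, toAdd_mul]

theorem hgt_agen (v : V) : hgt G (agen G v) = 1 := by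
  have h2 : aexp G (agen G v) = Multiplicative.ofAdd 1 := PresentedGroup.toGroup.of _
  unfold hgt
  rw [h2, toAdd_ofAdd]

theorem hgt_inv (g : Artin G) : hgt G g⁻¹ = - hgt G g := by
  unfold hgt
  rw [map_inv, toAdd_inv]

theorem hgt_mul_inv (g : Artin G) (v : V) : hgt G (g * (agen G v)⁻¹) = hgt G g - 1 := by
  rw [hgt_mul, hgt_inv, hgt_agen]
  ring

end Hgt

section

open Classical

variable {V : Type} [Fintype V] {G : SimpleGraph V}

theorem summable_fin {κ Γ : Type*} [Fintype κ] (F : κ × Γ → ℝ) (h0 : ∀ p, 0 ≤ F p)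
    (h : ∀ a, Summable fun g => F (a, g)) : Summable F := by
  rw [← (Equiv.prodComm κ Γ).symm.summable_iff]
  apply (summable_prod_of_nonneg _).2
  · constructor
    · intro g
      exact (hasSum_fintype _).summable
    · have h1 : ∀ g : Γ, ∑' j : κ, F (j, g) = ∑ j : κ, F (j, g) := fun g => tsum_fintype _
      show Summable fun g : Γ => ∑' j : κ, F (j, g)
      simp_rw [h1]
      exact summable_sum fun j _ => h j
  · intro p
    exact h0 _

/-- the restriction to the level `1/2` -/
noncomputable def res (G : SimpleGraph V) (k : ℕ) (x : LL {p // PC G k p} (Artin G)) :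
    Finset V → Artin G → ℂ :=
  fun σ g => if Cross G σ g then ev g (cpI (PC G k) x (σ, (-hgt G g).toNat)) else 0

theorem res_sub (k : ℕ) (x y : LL {p // PC G k p} (Artin G)) (σ : Finset V) (g : Artin G) :
    res G k (x - y) σ g = res G k x σ g - res G k y σ g := by
  unfold res
  split_ifs
  · rw [cpI_sub, map_sub]
  · rw [sub_zero]

theorem res_supp (k : ℕ) (x : LL {p // PC G k p} (Artin G)) (σ : Finset V) (g : Artin G)
    (h : res G k x σ g ≠ 0) : G.IsClique (σ : Set V) ∧ σ.card = k ∧ Cross G σ g := by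
  unfold res at h
  split_ifs at h with hc
  · by_cases hP : PC G k (σ, (-hgt G g).toNat)
    · exact ⟨hP.1, hP.2.1, hc⟩
    · rw [cpI_neg _ _ hP, map_zero] at h
      exact absurd rfl h
  · exact absurd rfl h

theorem summable_ev {Γ : Type*} [Group Γ] (x : LL Unit Γ) : Summable fun g => ‖ev g x‖ ^ 2 := by
  have h1 : Summable fun p : Unit × Γ => ‖x p‖ ^ 2 := (memlp_iff _).1 (lp.memℓp _)
  exact h1.comp_injective (i := fun g : Γ => ((), g)) (fun a b h => (Prod.ext_iff.1 h).2)

theorem res_le (k : ℕ) (x : LL {p // PC G k p} (Artin G)) (σ : Finset V) (g : Artin G) :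
    ‖res G k x σ g‖ ^ 2 ≤ ∑ j ∈ range k, ‖ev g (cpI (PC G k) x (σ, j))‖ ^ 2 := by
  have h0 : ∀ j ∈ range k, 0 ≤ ‖ev g (cpI (PC G k) x (σ, j))‖ ^ 2 := fun _ _ => sq_nonneg _
  unfold res
  split_ifs
  · by_cases hP : PC G k (σ, (-hgt G g).toNat)
    · exact single_le_sum h0 (mem_range.2 hP.2.2)
    · rw [cpI_neg _ _ hP, map_zero, norm_zero]
      have := sum_nonneg h0
      simpa using this
  · rw [norm_zero]
    have := sum_nonneg h0
    simpa using this

theorem res_summable (k : ℕ) (x : LL {p // PC G k p} (Artin G)) (σ : Finset V) :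
    Summable fun g => ‖res G k x σ g‖ ^ 2 :=
  Summable.of_nonneg_of_le (fun _ => sq_nonneg _) (res_le k x σ)
    (summable_sum fun _ _ => summable_ev _)

theorem isL2_res (i : ℕ) (x : LL {p // PC G (i + 1) p} (Artin G)) :
    IsL2ChainB G i (res G (i + 1) x) :=
  ⟨res_supp (i + 1) x, res_summable (i + 1) x⟩

theorem norm_res (k : ℕ) (x : LL {p // PC G k p} (Artin G)) :
    ∑ σ, ∑' g, ‖res G k x σ g‖ ^ 2 ≤ ‖x‖ ^ 2 := by
  have hs : Summable fun p : {p // PC G k p} × Artin G => ‖x p‖ ^ 2 :=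
    (memlp_iff _).1 (lp.memℓp _)
  have h1 : ‖x‖ ^ 2 = ∑ a : {p // PC G k p}, ∑' g, ‖ev g (cpI (PC G k) x a.1)‖ ^ 2 := by
    rw [norm_sq_lp, hs.tsum_prod, tsum_fintype]
    apply Finset.sum_congr rfl
    intro a _
    apply tsum_congr
    intro g
    rw [cpI_pos _ _ a.2]
    show _ = ‖pr a x ((), g)‖ ^ 2
    rw [pr_apply]
  have h2 : ∑ a : {p // PC G k p}, ∑' g, ‖ev g (cpI (PC G k) x a.1)‖ ^ 2
      = ∑ p ∈ (univ : Finset (Finset V)) ×ˢ range k, ∑' g, ‖ev g (cpI (PC G k) x p)‖ ^ 2 := by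
    rw [← Finset.sum_filter_of_ne (p := PC G k)]
    · symm
      apply Finset.sum_subtype
      intro p
      rw [mem_filter, mem_product, mem_range]
      exact ⟨fun h => h.2, fun h => ⟨⟨mem_univ _, h.2.2⟩, h⟩⟩
    · intro p _ hp
      by_contra hc
      apply hp
      rw [cpI_neg _ _ hc]
      simp
  rw [h1, h2, sum_product]
  apply sum_le_sum
  intro σ _
  have h3 : ∑ j ∈ range k, ∑' g, ‖ev g (cpI (PC G k) x (σ, j))‖ ^ 2
      = ∑' g, ∑ j ∈ range k, ‖ev g (cpI (PC G k) x (σ, j))‖ ^ 2 :=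
    (Summable.tsum_finsetSum fun j _ => summable_ev _).symm
  rw [h3]
  exact Summable.tsum_le_tsum (res_le k x σ) (res_summable k x σ)
    (summable_sum fun _ _ => summable_ev _)

theorem toNat_eq {a : ℤ} (h : a ≤ 0) : ∃ l : ℕ, (-a).toNat = l ∧ a = -(l : ℤ) :=
  ⟨(-a).toNat, rfl, by rw [Int.toNat_of_nonneg (by omega)]; ring⟩

theorem ev_RT {Γ : Type*} [Group Γ] (s g : Γ) (x : LL Unit Γ) : ev g (RT s x) = ev (g * s⁻¹) x :=
  RT_apply s x g

theorem bdB_res (ν : V → ℕ) (k : ℕ) (y : LL {p // PC G (k + 1) p} (Artin G)) :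
    bdB ν (res G (k + 1) y) = res G k (dC G (agen G) ν k y) := by
  funext τ g
  unfold bdB
  by_cases hc : Cross G τ g
  · rw [if_pos hc]
    obtain ⟨l, hl, hl'⟩ := toNat_eq hc.1
    have hlt : l < τ.card := by
      have := hc.2
      rw [hl'] at this
      omega
    by_cases hP : PC G k (τ, l)
    · have h1 : res G k (dC G (agen G) ν k y) τ g
          = ev g (cpI (PC G k) (dC G (agen G) ν k y) (τ, l)) := by
        unfold res
        rw [if_pos hc, hl]
      rw [h1, cpI_dC _ _ _ _ _ _ _ hP, map_sum]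
      unfold bdA
      apply sum_congr rfl
      intro u hu
      rw [ev_smul, map_sub, ev_RT]
      have hcu : ((insert u τ).card : ℤ) = τ.card + 1 := by
        rw [card_insert_of_notMem (mem_compl.1 hu)]
        push_cast
        ring
      have h2 : res G (k + 1) y (insert u τ) (g * (agen G u)⁻¹)
          = ev (g * (agen G u)⁻¹) (cpI (PC G (k + 1)) y (insert u τ, l + 1)) := by
        unfold res
        rw [if_pos, hgt_mul_inv, hl', show (-(-(l : ℤ) - 1)).toNat = l + 1 by omega]
        refine ⟨?_, ?_⟩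
        · rw [hgt_mul_inv]
          have := hc.1
          omega
        · rw [hgt_mul_inv, hcu]
          have := hc.2
          omega
      have h3 : res G (k + 1) y (insert u τ) g
          = ev g (cpI (PC G (k + 1)) y (insert u τ, l)) := by
        unfold res
        rw [if_pos, hl]
        refine ⟨hc.1, ?_⟩
        rw [hcu]
        have := hc.2
        omega
      rw [h2, h3]
      congr 1
      unfold sg
      push_cast
      rfl
    · have h1 : res G k (dC G (agen G) ν k y) τ g = 0 := by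
        unfold res
        rw [if_pos hc, hl, cpI_neg _ _ hP, map_zero]
      rw [h1]
      unfold bdA
      apply sum_eq_zero
      intro u hu
      have h2 : ∀ g', res G (k + 1) y (insert u τ) g' = 0 := by
        intro g'
        by_contra hne
        obtain ⟨h3, h4, -⟩ := res_supp _ _ _ _ hne
        rw [card_insert_of_notMem (mem_compl.1 hu)] at h4
        apply hP
        refine ⟨h3.subset ?_, ?_, ?_⟩
        · intro a ha
          simp only [mem_coe] at ha ⊢
          exact mem_insert_of_mem ha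
        · show τ.card = k
          omega
        · show l < k
          omega
      rw [h2, h2, sub_zero, mul_zero]
  · rw [if_neg hc]
    unfold res
    rw [if_neg hc]

/-- the element of `ℓ²` of a chain -/
noncomputable def toLC {i : ℕ} {z : Finset V → Artin G → ℂ} (hz : IsL2ChainB G i z) :
    LL {p // PC G (i + 1) p} (Artin G) :=
  ⟨fun p => if hgt G p.2 = -(p.1.1.2 : ℤ) then z p.1.1.1 p.2 else 0, (memlp_iff _).2 (by
    apply summable_fin
    · intro p
      exact sq_nonneg _
    · intro a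
      refine Summable.of_nonneg_of_le (fun _ => sq_nonneg _) (fun g => ?_) (hz.l2 a.1.1)
      show ‖(if hgt G g = -(a.1.2 : ℤ) then z a.1.1 g else 0 : ℂ)‖ ^ 2 ≤ _
      split_ifs
      · exact le_refl _
      · rw [norm_zero, zero_pow two_ne_zero]
        exact sq_nonneg _)⟩

theorem ev_toLC {i : ℕ} {z : Finset V → Artin G → ℂ} (hz : IsL2ChainB G i z) (σ : Finset V)
    (j : ℕ) (g : Artin G) :
    ev g (cpI (PC G (i + 1)) (toLC hz) (σ, j)) = if hgt G g = -(j : ℤ) then z σ g else 0 := by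
  by_cases h : PC G (i + 1) (σ, j)
  · rw [cpI_pos _ _ h]
    show pr (⟨(σ, j), h⟩ : {p // PC G (i + 1) p}) (toLC hz) ((), g) = _
    rw [pr_apply]
    rfl
  · rw [cpI_neg _ _ h, map_zero]
    split_ifs with hj
    · by_contra hne
      obtain ⟨h1, h2, h3, h4⟩ := hz.supp σ g (Ne.symm hne)
      apply h
      refine ⟨h1, h2, ?_⟩
      show j < i + 1
      rw [hj, h2] at h4
      omega
    · rfl

theorem res_toLC {i : ℕ} {z : Finset V → Artin G → ℂ} (hz : IsL2ChainB G i z) :
    res G (i + 1) (toLC hz) = z := by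
  funext σ g
  unfold res
  split_ifs with hc
  · obtain ⟨l, hl, hl'⟩ := toNat_eq hc.1
    rw [hl, ev_toLC, if_pos hl']
  · by_contra hne
    exact hc (hz.supp σ g (Ne.symm hne)).2.2

theorem dC_toLC (ν : V → ℕ) {i : ℕ} {z : Finset V → Artin G → ℂ} (hz : IsL2ChainB G i z)
    (hb : bdB ν z = 0) : dC G (agen G) ν i (toLC hz) = 0 := by
  apply cpI_ext
  rintro ⟨τ, l⟩ hP
  rw [cpI_zero]
  apply ev_ext
  intro g
  rw [map_zero]
  by_cases hg : hgt G g = -(l : ℤ)
  · have hc : Cross G τ g := by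
      refine ⟨by omega, ?_⟩
      rw [hg]
      have h1 : τ.card = i := hP.2.1
      have h2 : l < i := hP.2.2
      omega
    have h1 := congrFun (congrFun (bdB_res (G := G) ν i (toLC hz)) τ) g
    rw [res_toLC hz, hb] at h1
    unfold res at h1
    rw [if_pos hc, hg, show (- -(l : ℤ)).toNat = l by omega] at h1
    exact h1.symm
  · rw [cpI_dC _ _ _ _ _ _ _ hP, map_sum]
    apply sum_eq_zero
    intro u _
    rw [ev_smul, map_sub, ev_RT, ev_toLC, ev_toLC, if_neg hg, if_neg, sub_zero, mul_zero]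
    rw [hgt_mul_inv]
    push_cast
    omega

/-- **Main theorem**, with functions: if the homology of all links vanishes over `ℂ` on the simplices
with `i` vertices, then the reduced `ℓ²`-homology of the level set vanishes in degree `i`. -/
theorem l2_approx_lev (ν : V → ℕ) (hν : Function.Injective ν) (i : ℕ)
    (hord : ∀ u v, G.Adj u v → ∀ n : ℕ, 0 < n → (agen G u * (agen G v)⁻¹) ^ n ≠ 1)
    (hE : ∀ v, Ex ℂ ν (fun ρ => PE G (i + 1) (v, ρ)) fun ρ => PE G (i + 2) (v, ρ))
    (z : Finset V → Artin G → ℂ) (hz : IsL2ChainB G i z) (hb : bdB ν z = 0) (ε : ℝ)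
    (hε : 0 < ε) :
    ∃ y : Finset V → Artin G → ℂ, IsL2ChainB G (i + 1) y ∧
      ∑ σ, ∑' g, ‖z σ g - bdB ν y σ g‖ ^ 2 < ε := by
  have h1 := ker_le_lev G (agen G) (agen_comm G) hord ν hν i hE
    ((mem_kr _ _).2 (dC_toLC ν hz hb))
  obtain ⟨y, hy⟩ := exists_approx _ _ h1 (Real.sqrt ε) (Real.sqrt_pos.2 hε)
  refine ⟨res G (i + 2) y, isL2_res (i + 1) y, ?_⟩
  have h2 : ∀ σ g, z σ g - bdB ν (res G (i + 2) y) σ g
      = res G (i + 1) (toLC hz - dC G (agen G) ν (i + 1) y) σ g := by
    intro σ g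
    rw [res_sub, bdB_res, res_toLC]
  simp_rw [h2]
  calc ∑ σ, ∑' g, ‖res G (i + 1) (toLC hz - dC G (agen G) ν (i + 1) y) σ g‖ ^ 2
      ≤ ‖toLC hz - dC G (agen G) ν (i + 1) y‖ ^ 2 := norm_res _ _
    _ < Real.sqrt ε ^ 2 := by gcongr
    _ = ε := Real.sq_sqrt hε.le

end

end Pool.Agent.H72.BBG
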