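import Pool.Agent.H72.BBG.Fn

/-!
# Project BB: the homology of the links
-/

set_option autoImplicit false
set_option linter.unusedSectionVars false

namespace Pool.Agent.H72.BBG

open Finset
open Pool.Agent.H65.RA Pool.Agent.H78.RA

variable {V : Type}

/-- the link of a vertex in the flag complex: the induced graph on the neighbours -/
def lnk (G : SimpleGraph V) (v : V) : SimpleGraph {w : V // G.Adj v w} :=
  G.comap Subtype.val

section

variable [Fintype V] [DecidableEq V] (G : SimpleGraph V) (v : V)

private theorem exists_map (τ : Finset V) (h : ∀ u ∈ τ, G.Adj v u) :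
    ∃ s : Finset {w : V // G.Adj v w}, s.map (Function.Embedding.subtype _) = τ := by
  classical
  exact ⟨τ.subtype (fun w => G.Adj v w), subtype_map_of_mem h⟩

private theorem clique_map [DecidableEq {w : V // G.Adj v w}] (s : Finset {w : V // G.Adj v w}) :
    (lnk G v).IsClique (s : Set {w : V // G.Adj v w}) ↔
      G.IsClique ((insert v (s.map (Function.Embedding.subtype _)) : Finset V) : Set V) := by
  constructor
  · intro h a ha b hb hab
    simp only [mem_coe, mem_insert, mem_map, Function.Embedding.subtype_apply] at ha hb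
    rcases ha with rfl | ⟨a', ha', rfl⟩
    · rcases hb with rfl | ⟨b', _, rfl⟩
      · exact absurd rfl hab
      · exact b'.2
    · rcases hb with rfl | ⟨b', hb', rfl⟩
      · exact a'.2.symm
      · exact h (mem_coe.2 ha') (mem_coe.2 hb') (fun h' => hab (congrArg _ h'))
  · intro h a ha b hb hab
    exact h (mem_coe.2 (mem_insert_of_mem (mem_map_of_mem _ (mem_coe.1 ha))))
      (mem_coe.2 (mem_insert_of_mem (mem_map_of_mem _ (mem_coe.1 hb))))
      (fun h' => hab (Subtype.ext h'))

private theorem sum_link [DecidableEq {w : V // G.Adj v w}] [Fintype {w : V // G.Adj v w}]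
    (F : Finset V → ZMod 2) (s : Finset {w : V // G.Adj v w})
    (hF : ∀ u, u ∉ s.map (Function.Embedding.subtype _) → ¬ G.Adj v u →
      F (insert u (s.map (Function.Embedding.subtype _))) = 0) :
    ∑ u ∈ (s.map (Function.Embedding.subtype _))ᶜ,
      F (insert u (s.map (Function.Embedding.subtype _)))
      = ∑ w ∈ sᶜ, F ((insert w s).map (Function.Embedding.subtype _)) := by
  have h1 : ∑ w ∈ sᶜ, F ((insert w s).map (Function.Embedding.subtype _))
      = ∑ u ∈ sᶜ.map (Function.Embedding.subtype _),
        F (insert u (s.map (Function.Embedding.subtype _))) := by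
    rw [sum_map]
    apply sum_congr rfl
    intro w _
    rw [map_insert]
  rw [h1]
  symm
  apply sum_subset
  · intro u hu
    obtain ⟨w, hw, rfl⟩ := mem_map.1 hu
    rw [mem_compl] at hw ⊢
    intro h
    obtain ⟨w', hw', h'⟩ := mem_map.1 h
    exact hw (Function.Embedding.injective _ h' ▸ hw')
  · intro u hu hu'
    rw [mem_compl] at hu
    apply hF u hu
    intro hadj
    apply hu'
    refine mem_map.2 ⟨⟨u, hadj⟩, ?_, rfl⟩
    rw [mem_compl]
    intro h
    exact hu (mem_map.2 ⟨_, h, rfl⟩)

/-- exactness of the complex of the link -/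
theorem ex_of_link [DecidableEq {w : V // G.Adj v w}] [Fintype {w : V // G.Adj v w}] (i : ℕ)
    (h : HZ (lnk G v) i) (ν : V → ℕ) :
    Ex (ZMod 2) ν
      (fun ρ => v ∉ ρ ∧ G.IsClique ((insert v ρ : Finset V) : Set V) ∧ ρ.card + 1 = i + 1)
      (fun ρ => v ∉ ρ ∧ G.IsClique ((insert v ρ : Finset V) : Set V) ∧ ρ.card + 1 = i + 2) := by
  intro z hz1 hz2
  have hadj : ∀ ρ : Finset V, z ρ ≠ 0 → ∀ u ∈ ρ, G.Adj v u := by
    intro ρ hρ u hu
    obtain ⟨h1, h2, -⟩ := hz1 ρ hρ
    exact h2 (by simp) (by simp [hu]) (fun h' => h1 (h' ▸ hu))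
  have hzero : ∀ ρ : Finset V, ∑ u ∈ ρᶜ, z (insert u ρ) = 0 := by
    intro ρ
    rw [← bd_two ν, hz2]
    rfl
  have hF : ∀ (s : Finset {w : V // G.Adj v w}) (u : V),
      u ∉ s.map (Function.Embedding.subtype _) → ¬ G.Adj v u →
      z (insert u (s.map (Function.Embedding.subtype _))) = 0 := by
    intro s u _ hn
    by_contra hne
    exact hn (hadj _ hne u (mem_insert_self _ _))
  obtain ⟨y', hy1, hy2⟩ := h (fun s => z (s.map (Function.Embedding.subtype _))) (by
    intro s hs
    obtain ⟨-, h2, h3⟩ := hz1 _ hs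
    rw [card_map] at h3
    exact ⟨(clique_map G v s).2 h2, by omega⟩) (by
    intro s
    rw [← sum_link G v z s (hF s)]
    exact hzero _)
  have hinj : Function.Injective fun s : Finset {w : V // G.Adj v w} =>
      s.map (Function.Embedding.subtype _) := Finset.map_injective _
  set y : Finset V → ZMod 2 := Function.extend (fun s : Finset {w : V // G.Adj v w} =>
    s.map (Function.Embedding.subtype _)) y' 0 with hy
  have hye : ∀ s, y (s.map (Function.Embedding.subtype _)) = y' s := by
    intro s
    exact hinj.extend_apply y' 0 s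
  have hyn : ∀ τ, y τ ≠ 0 → ∃ s : Finset {w : V // G.Adj v w},
      s.map (Function.Embedding.subtype _) = τ := by
    intro τ hτ
    by_contra hc
    apply hτ
    rw [hy, Function.extend_apply' _ _ _ hc]
    rfl
  refine ⟨y, ?_, ?_⟩
  · intro τ hτ
    obtain ⟨s, rfl⟩ := hyn τ hτ
    rw [hye] at hτ
    obtain ⟨h1, h2⟩ := hy1 s hτ
    refine ⟨?_, (clique_map G v s).1 h1, by rw [card_map, h2]⟩
    intro hv
    obtain ⟨w, -, hw⟩ := mem_map.1 hv
    have h3 : G.Adj v w.1 := w.2
    rw [show w.1 = v from hw] at h3
    exact G.loopless.irrefl v h3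
  · funext τ
    rw [bd_two]
    by_cases hτ : ∃ s : Finset {w : V // G.Adj v w}, s.map (Function.Embedding.subtype _) = τ
    · obtain ⟨s, rfl⟩ := hτ
      rw [sum_link G v y s]
      · simp_rw [hye]
        exact hy2 s
      · intro u _ hn
        by_contra hne
        obtain ⟨s', hs'⟩ := hyn _ hne
        have h1 : u ∈ s'.map (Function.Embedding.subtype _) := by
          rw [hs']
          exact mem_insert_self _ _
        obtain ⟨w, -, hw⟩ := mem_map.1 h1
        exact hn (hw ▸ w.2)
    · have h1 : z τ = 0 := by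
        by_contra hne
        exact hτ (exists_map G v τ (hadj τ hne))
      rw [h1]
      apply sum_eq_zero
      intro u _
      by_contra hne
      obtain ⟨s', hs'⟩ := hyn _ hne
      apply hτ
      apply exists_map
      intro a ha
      have h2 : a ∈ s'.map (Function.Embedding.subtype _) := by
        rw [hs']
        exact mem_insert_of_mem ha
      obtain ⟨w, -, hw⟩ := mem_map.1 h2
      exact hw ▸ w.2

end

end Pool.Agent.H72.BBG
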