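import Pool.Agent.H72.BBG.Link
import Pool.Agent.H65.RM.Artin

/-!
# Project BB: Bestvina–Brady groups acting on homology manifolds
-/

set_option autoImplicit false

namespace Pool.Agent.H72.BBG

open Finset
open Pool.Agent.H37.TM Pool.Agent.H65.RA Pool.Agent.H78.RA Pool.Agent.H65.RM

section

variable {V : Type} [Fintype V] [dV : DecidableEq V] (G : SimpleGraph V)

omit [Fintype V] in
theorem quot_order (u v : V) (h : G.Adj u v) (n : ℕ) (hn : 0 < n) :
    (agen G u * (agen G v)⁻¹) ^ n ≠ 1 := by
  intro h0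
  have h1 := congrArg (fun g => Multiplicative.toAdd (vexp G u g)) h0
  simp only [map_pow, map_mul, map_inv, map_one, toAdd_pow, toAdd_mul, toAdd_inv, toAdd_one] at h1
  have h2 : vexp G u (agen G u) = Multiplicative.ofAdd (if u = u then 1 else 0) :=
    PresentedGroup.toGroup.of _
  have h3 : vexp G u (agen G v) = Multiplicative.ofAdd (if v = u then 1 else 0) :=
    PresentedGroup.toGroup.of _
  rw [h2, h3, toAdd_ofAdd, toAdd_ofAdd, if_pos rfl, if_neg h.ne'] at h1
  simp at h1
  omega

/-- If the reduced mod 2 homology of all links vanishes in degree `i - 1`, then the reduced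
`ℓ²`-homology of the level set vanishes in degree `i`. -/
theorem l2zero_level {G : SimpleGraph V} (i : ℕ)
    (h : ∀ v, @HZ {w : V // G.Adj v w} (Classical.decEq _) (Fintype.ofFinite _) (lnk G v) i) :
    L2ZeroLevel G i := by
  have hd : dV = fun a b => Classical.propDecidable (a = b) := Subsingleton.elim _ _
  subst hd
  classical
  intro ν hν z hz hb ε hε
  refine l2_approx_lev ν hν i (fun u v hadj n hn => quot_order G u v hadj n hn) (fun v => ?_)
    z hz hb ε hε
  refine ex_two ν hν (PE_faces G (i + 1) v) ?_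
  let _ : DecidableEq {w : V // G.Adj v w} := Classical.decEq _
  let _ : Fintype {w : V // G.Adj v w} := Fintype.ofFinite _
  exact ex_of_link G v i (h v) ν

omit [Fintype V] in
/-- the obstruction of the octahedralisation of a link -/
theorem van_oct_link {U : Type} [DecidableEq U] [MulAction (aexp G).ker U]
    {K B : Set (Finset U)} {n k : ℕ} (hM : Mfd K B n) (hK : Acyc K)
    (hA : PAct (aexp G).ker K B) (hn : n ≤ 2 * k + 1) (v : V) [DecidableEq {w : V // G.Adj v w}]
    [Fintype {w : V // G.Adj v w}] :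
    Pool.Agent.H85.VK.VanKampenZero (oct (lnk G v)) k := by
  have hmem : ∀ w : {w : V // G.Adj v w}, agen G w.1 * (agen G v)⁻¹ ∈ (aexp G).ker := by
    intro w
    rw [MonoidHom.mem_ker, map_mul, map_inv]
    have h1 : ∀ u, aexp G (agen G u) = Multiplicative.ofAdd 1 := fun u =>
      PresentedGroup.toGroup.of _
    rw [h1, h1, mul_inv_cancel]
  refine van_oct_of_act (lnk G v) (fun w => (⟨agen G w.1 * (agen G v)⁻¹, hmem w⟩ : (aexp G).ker))
    (fun a b hab => ?_) (fun w g => Multiplicative.toAdd (vexp G w.1 g.1))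
    (fun w g h => ?_) (fun w u => ?_) hM hK hA hn
  · apply Subtype.ext
    show agen G a.1 * (agen G v)⁻¹ * (agen G b.1 * (agen G v)⁻¹)
      = agen G b.1 * (agen G v)⁻¹ * (agen G a.1 * (agen G v)⁻¹)
    have c1 : Commute (agen G a.1) (agen G b.1) := agen_comm G _ _ hab
    have c2 : Commute (agen G a.1) (agen G v) := (agen_comm G _ _ a.2).symm
    have c3 : Commute (agen G b.1) (agen G v) := (agen_comm G _ _ b.2).symm
    have c4 : Commute (agen G a.1 * (agen G v)⁻¹) (agen G b.1 * (agen G v)⁻¹) :=
      (c1.mul_right c2.inv_right).mul_left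
        (c3.symm.inv_left.mul_right (Commute.refl _))
    exact c4.eq
  · show Multiplicative.toAdd (vexp G w.1 (g.1 * h.1)) = _
    rw [map_mul, toAdd_mul]
  · show Multiplicative.toAdd (vexp G w.1 (agen G u.1 * (agen G v)⁻¹)) = _
    have h1 : ∀ u, vexp G w.1 (agen G u) = Multiplicative.ofAdd (if u = w.1 then 1 else 0) :=
      fun u => PresentedGroup.toGroup.of _
    rw [map_mul, map_inv, toAdd_mul, toAdd_inv, h1, h1, toAdd_ofAdd, toAdd_ofAdd, if_neg w.2.ne,
      neg_zero, add_zero]
    by_cases h : u = w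
    · rw [if_pos h, if_pos (congrArg _ h)]
    · rw [if_neg h, if_neg fun h' => h (Subtype.ext h')]

/-- **Q1 for Bestvina–Brady groups.** -/
theorem l2zero_bb_of_act {U : Type} [DecidableEq U] [MulAction (aexp G).ker U]
    {K B : Set (Finset U)} {n : ℕ} (hM : Mfd K B n) (hK : Acyc K)
    (hA : PAct (aexp G).ker K B) (i : ℕ) (hi : n < 2 * i) : L2ZeroLevel G i := by
  obtain ⟨k, rfl⟩ : ∃ k, i = k + 1 := ⟨i - 1, by omega⟩
  refine l2zero_level (k + 1) fun v => ?_
  let _ : DecidableEq {w : V // G.Adj v w} := Classical.decEq _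
  let _ : Fintype {w : V // G.Adj v w} := Fintype.ofFinite _
  refine Pool.Agent.H75.Oct.hz_of_pairing (lnk G v) (k + 1) fun x z hx hz hdz => ?_
  exact van_pair (van_oct_link G hM hK hA (k := k) (by omega) v) x z hx hz hdz

end

end Pool.Agent.H72.BBG
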