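import Pool.Agent.H72.BBG.Cpx

/-!
# Project BB: the comparison, operator form
-/

set_option autoImplicit false
set_option linter.unusedSectionVars false

namespace Pool.Agent.H72.BBG

open Finset
open Pool.Agent.H4.Atiyah Pool.Agent.H78.RA

section

open Classical

variable {V : Type*} [Fintype V] {Γ : Type*} [Group Γ]

theorem PE_faces (G : SimpleGraph V) (k : ℕ) (v : V) :
    Faces (fun ρ => PE G (k + 1) (v, ρ)) fun ρ => PE G k (v, ρ) := by
  rintro ρ u hu ⟨h1, h2, h3⟩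
  simp only [mem_insert, not_or] at h1
  refine ⟨h1.2, h2.subset ?_, ?_⟩
  · intro a ha
    simp only [mem_coe, mem_insert] at ha ⊢
    rcases ha with ha | ha
    · exact Or.inl ha
    · exact Or.inr (Or.inr ha)
  · simp only [card_insert_of_notMem hu] at h3
    show ρ.card + 1 = k
    omega

/-- extension by zero -/
noncomputable def ex0 {I : Type*} (P : I → Prop) (z : {a // P a} → ℂ) (a : I) : ℂ :=
  if h : P a then z ⟨a, h⟩ else 0

theorem ex0_add {I : Type*} (P : I → Prop) (z w : {a // P a} → ℂ) (a : I) :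
    ex0 P (z + w) a = ex0 P z a + ex0 P w a := by
  unfold ex0
  split_ifs
  · rfl
  · rw [add_zero]

theorem ex0_smul {I : Type*} (P : I → Prop) (c : ℂ) (z : {a // P a} → ℂ) (a : I) :
    ex0 P (c • z) a = c * ex0 P z a := by
  unfold ex0
  split_ifs
  · rfl
  · rw [mul_zero]

theorem ex0_supp {I : Type*} (P : I → Prop) (z : {a // P a} → ℂ) (a : I) (h : ex0 P z a ≠ 0) :
    P a := by
  by_contra hc
  exact h (dif_neg hc)

/-- the boundary of the complex of the links with scalar coefficients -/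
noncomputable def mE (G : SimpleGraph V) (ν : V → ℕ) (k : ℕ) :
    ({q // PE G (k + 1) q} → ℂ) →ₗ[ℂ] ({q // PE G k q} → ℂ) where
  toFun z := fun b => bd ν (fun ρ => ex0 (PE G (k + 1)) z (b.1.1, ρ)) b.1.2
  map_add' := by
    intro z w
    funext b
    have h1 : (fun ρ => ex0 (PE G (k + 1)) (z + w) (b.1.1, ρ))
        = (fun ρ => ex0 (PE G (k + 1)) z (b.1.1, ρ)) + fun ρ => ex0 (PE G (k + 1)) w (b.1.1, ρ) :=
      funext fun ρ => ex0_add _ _ _ _
    rw [h1, bd_add]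
    rfl
  map_smul' := by
    intro c z
    funext b
    have h1 : (fun ρ => ex0 (PE G (k + 1)) (c • z) (b.1.1, ρ))
        = fun ρ => AddMonoidHom.mulLeft c (ex0 (PE G (k + 1)) z (b.1.1, ρ)) :=
      funext fun ρ => ex0_smul _ _ _ _
    rw [h1, map_bd]
    rfl

theorem eE_apply (G : SimpleGraph V) (ν : V → ℕ) (k : ℕ) (x : LL {q // PE G (k + 1) q} Γ)
    (b : {q // PE G k q}) (g : Γ) :
    eE Γ G ν k x (b, g) = mE G ν k (fun a => x (a, g)) b := by
  rw [← pr_apply, show pr b (eE Γ G ν k x) = cpI (PE G k) (eE Γ G ν k x) b.1 from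
    (cpI_pos _ _ b.2).symm]
  obtain ⟨⟨v, ρ⟩, hb⟩ := b
  rw [cpI_eE]
  show ev g _ = bd ν (fun ρ => ex0 (PE G (k + 1)) (fun a => x (a, g)) (v, ρ)) ρ
  rw [← map_bd]
  congr 1
  funext τ
  unfold cpI ex0
  split_ifs with h
  · exact pr_apply _ _ _
  · exact map_zero _

theorem mE_exact (G : SimpleGraph V) (ν : V → ℕ) (k : ℕ)
    (hE : ∀ v, Ex ℂ ν (fun ρ => PE G (k + 1) (v, ρ)) fun ρ => PE G (k + 2) (v, ρ))
    (z : {q // PE G (k + 1) q} → ℂ) (hz : mE G ν k z = 0) : ∃ y, mE G ν (k + 1) y = z := by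
  have h1 : ∀ v, ∃ y : Finset V → ℂ, (∀ ρ, y ρ ≠ 0 → PE G (k + 2) (v, ρ)) ∧
      bd ν y = fun ρ => ex0 (PE G (k + 1)) z (v, ρ) := by
    intro v
    apply hE v
    · intro ρ h
      exact ex0_supp _ _ _ h
    · funext ρ
      by_cases h : PE G k (v, ρ)
      · exact congrFun hz ⟨(v, ρ), h⟩
      · by_contra hne
        exact h (bd_supp ν (PE_faces G k v) _ (fun ρ h' => ex0_supp _ _ _ h') ρ hne)
  choose y hy1 hy2 using h1
  refine ⟨fun b => y b.1.1 b.1.2, ?_⟩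
  funext b
  obtain ⟨⟨v, ρ⟩, hb⟩ := b
  show bd ν (fun ρ => ex0 (PE G (k + 2)) (fun b => y b.1.1 b.1.2) (v, ρ)) ρ = _
  have h2 : (fun ρ => ex0 (PE G (k + 2)) (fun b => y b.1.1 b.1.2) (v, ρ)) = y v := by
    funext τ
    unfold ex0
    split_ifs with h
    · rfl
    · by_contra hne
      exact h (hy1 v τ (Ne.symm hne))
  rw [h2, hy2]
  exact dif_pos hb

/-- **Comparison**, operator form. -/
theorem ker_le_lev (G : SimpleGraph V) (t : V → Γ)
    (hcomm : ∀ u v, G.Adj u v → t u * t v = t v * t u)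
    (hord : ∀ u v, G.Adj u v → ∀ n : ℕ, 0 < n → (t u * (t v)⁻¹) ^ n ≠ 1) (ν : V → ℕ)
    (hν : Function.Injective ν) (k : ℕ)
    (hE : ∀ v, Ex ℂ ν (fun ρ => PE G (k + 1) (v, ρ)) fun ρ => PE G (k + 2) (v, ρ)) :
    kr (dC G t ν k) ≤ (kr (ContinuousLinearMap.adjoint (dC G t ν (k + 1))))ᗮ := by
  refine ker_le' (card_eq G (k + 1)) (card_eq G (k + 2)) (dC G t ν k) (eE Γ G ν k)
    (dC G t ν (k + 1)) (eE Γ G ν (k + 1)) (Psi G t ν k) (Psi G t ν (k + 1)) (Psi G t ν (k + 2))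
    (eqv_dC G t ν k) (eqv_dC G t ν (k + 1)) (eqv_eE G ν (k + 1)) (eqv_Psi G t ν (k + 1))
    (eqv_Psi G t ν (k + 2)) ?_ (chain_map_Psi G t hcomm ν hν k)
    (chain_map_Psi G t hcomm ν hν (k + 1)) (Psi_inj G t hcomm hord ν k)
    (Psi_inj G t hcomm hord ν (k + 1)) (Psi_inj G t hcomm hord ν (k + 2)) ?_
  · intro y
    apply cpI_ext
    rintro ⟨v, ρ⟩ _
    rw [cpI_eE, cpI_zero, show (fun ρ => cpI (PE G (k + 1)) (eE Γ G ν (k + 1) y) (v, ρ))
      = bd ν (fun ρ => cpI (PE G (k + 2)) y (v, ρ)) from funext fun ρ => cpI_eE _ _ _ _ _ _]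
    exact bd_bd ν hν _ ρ
  · exact exact_scalar (eE Γ G ν k) (eE Γ G ν (k + 1)) (mE G ν k) (mE G ν (k + 1))
      (eE_apply G ν k) (eE_apply G ν (k + 1)) (mE_exact G ν k hE)

end

end Pool.Agent.H72.BBG
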