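import Pool.Agent.H78.RA.Gen

/-!
# Project BB (Bestvina–Brady groups): operators

The comparison theorem for complexes with different index sets of the same size, exactness of
complexes with scalar coefficients, operators given by sparse matrices.
-/

set_option autoImplicit false
set_option linter.unusedSectionVars false

namespace Pool.Agent.H72.BBG

open Finset
open Pool.Agent.H4.Atiyah Pool.Agent.H78.RA

section KerLe

variable {G : Type*} [Group G] {κ₀ κ₁ κ₂ ι₀ ι₁ ι₂ : Type*} [DecidableEq κ₀] [DecidableEq κ₁]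
  [DecidableEq κ₂] [DecidableEq ι₀] [DecidableEq ι₁] [DecidableEq ι₂] [DecidableEq G]
  [Fintype κ₀] [Fintype κ₁] [Fintype κ₂] [Fintype ι₀] [Fintype ι₁] [Fintype ι₂]

/-- **Comparison**: if a complex of free modules maps injectively to an exact one of the same ranks,
then its reduced homology vanishes. -/
theorem ker_le' (hk₁ : Fintype.card κ₁ = Fintype.card ι₁) (hk₂ : Fintype.card κ₂ = Fintype.card ι₂)
    (d₁ : LL κ₁ G →L[ℂ] LL κ₀ G) (e₁ : LL ι₁ G →L[ℂ] LL ι₀ G) (d₂ : LL κ₂ G →L[ℂ] LL κ₁ G)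
    (e₂ : LL ι₂ G →L[ℂ] LL ι₁ G) (a₀ : LL κ₀ G →L[ℂ] LL ι₀ G) (a₁ : LL κ₁ G →L[ℂ] LL ι₁ G)
    (a₂ : LL κ₂ G →L[ℂ] LL ι₂ G)
    (hd₁ : Eqv d₁) (hd₂ : Eqv d₂) (he₂ : Eqv e₂) (ha₁ : Eqv a₁) (ha₂ : Eqv a₂)
    (hee : ∀ y, e₁ (e₂ y) = 0) (hc₁ : ∀ x, e₁ (a₁ x) = a₀ (d₁ x)) (hc₂ : ∀ x, e₂ (a₂ x) = a₁ (d₂ x))
    (hi₀ : ∀ x, a₀ x = 0 → x = 0) (hi₁ : ∀ x, a₁ x = 0 → x = 0) (hi₂ : ∀ x, a₂ x = 0 → x = 0)
    (hex : ∀ x, e₁ x = 0 → ∃ w, e₂ w = x) :
    kr d₁ ≤ (kr (ContinuousLinearMap.adjoint d₂))ᗮ := by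
  have hdd : ∀ x, d₁ (d₂ x) = 0 := by
    intro x
    apply hi₀
    rw [← hc₁, ← hc₂, hee]
  have b1 := gdim_kr d₂ hd₂
  have b2 := gdim_kr e₂ he₂
  have m1 : gdim (kr d₁) ≤ gdim (kr e₁) := by
    refine gdim_le_of_injOn (Inv.kr hd₁) a₁ ha₁ ?_ (fun x _ => hi₁ x)
    intro x hx
    rw [mem_kr, hc₁, (mem_kr _ _).1 hx, map_zero]
  have m2 : gdim (kr d₂) ≤ gdim (kr e₂) := by
    refine gdim_le_of_injOn (Inv.kr hd₂) a₂ ha₂ ?_ (fun x _ => hi₂ x)
    intro x hx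
    rw [mem_kr, hc₂, (mem_kr _ _).1 hx, map_zero]
  have m3 : gdim (kr e₁) ≤ gdim (kr (ContinuousLinearMap.adjoint e₂))ᗮ := by
    apply gdim_mono
    intro x hx
    rw [Submodule.mem_orthogonal']
    intro y hy
    obtain ⟨w, rfl⟩ := hex x hx
    rw [← ContinuousLinearMap.adjoint_inner_right, (mem_kr _ _).1 hy, inner_zero_right]
  have m4 := gdim_orth (kr (ContinuousLinearMap.adjoint e₂))
  have m5 := gdim_orth (kr (ContinuousLinearMap.adjoint d₂))
  have hle : (kr (ContinuousLinearMap.adjoint d₂))ᗮ ≤ kr d₁ := by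
    intro y hy
    rw [mem_kr]
    apply ext_inner_right ℂ
    intro w
    rw [inner_zero_left, ← ContinuousLinearMap.adjoint_inner_right]
    apply (Submodule.mem_orthogonal' _ _).1 hy
    rw [mem_kr]
    apply ext_inner_right ℂ
    intro v
    rw [ContinuousLinearMap.adjoint_inner_left, ContinuousLinearMap.adjoint_inner_left, hdd,
      inner_zero_right, inner_zero_left]
  have h1 : (Fintype.card κ₁ : ℝ) = Fintype.card ι₁ := by rw [hk₁]
  have h2 : (Fintype.card κ₂ : ℝ) = Fintype.card ι₂ := by rw [hk₂]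
  exact gdim_faithful (Inv.kr hd₂.adjoint).orth (Inv.kr hd₁) hle (by linarith)

/-- exactness of a complex with scalar coefficients -/
theorem exact_scalar (e₁ : LL ι₁ G →L[ℂ] LL ι₀ G) (e₂ : LL ι₂ G →L[ℂ] LL ι₁ G)
    (m₁ : (ι₁ → ℂ) →ₗ[ℂ] (ι₀ → ℂ)) (m₂ : (ι₂ → ℂ) →ₗ[ℂ] (ι₁ → ℂ))
    (h₁ : ∀ (x : LL ι₁ G) (b : ι₀) (g : G), e₁ x (b, g) = m₁ (fun a => x (a, g)) b)
    (h₂ : ∀ (x : LL ι₂ G) (b : ι₁) (g : G), e₂ x (b, g) = m₂ (fun a => x (a, g)) b)
    (hex : ∀ z, m₁ z = 0 → ∃ y, m₂ y = z) (x : LL ι₁ G) (hx : e₁ x = 0) : ∃ w, e₂ w = x := by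
  obtain ⟨s, hs⟩ := exists_ginv m₂
  set M : ι₁ → ι₂ → BB G := fun a c => (s (Pi.single a 1) c : ℂ) • 1 with hM
  have h3 : ∀ (c : ι₂) (g : G), (Mop M x : LL ι₂ G) (c, g) = s (fun a => x (a, g)) c := by
    intro c g
    rw [← pr_apply, pr_Mop, lp_sum_apply]
    have h4 : (fun a => x (a, g)) = ∑ a : ι₁, x (a, g) • (Pi.single a (1 : ℂ) : ι₁ → ℂ) := by
      funext b
      rw [Finset.sum_apply, Finset.sum_eq_single b]
      · simp
      · intro a _ ha
        simp [Pi.single_eq_of_ne (Ne.symm ha)]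
      · intro h
        exact absurd (Finset.mem_univ _) h
    rw [h4, map_sum, Finset.sum_apply]
    apply Finset.sum_congr rfl
    intro a _
    rw [map_smul, Pi.smul_apply, smul_eq_mul, mul_comm]
    show (s (Pi.single a 1) c : ℂ) * pr a x ((), g) = _
    rw [pr_apply]
  refine ⟨Mop M x, ?_⟩
  ext ⟨a, g⟩
  rw [h₂, show (fun c => (Mop M x : LL ι₂ G) (c, g)) = s (fun a => x (a, g)) from
    funext fun c => h3 c g]
  obtain ⟨y, hy⟩ := hex (fun a => x (a, g)) (by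
    funext b
    rw [← h₁, hx]
    rfl)
  rw [← hy, hs, hy]

end KerLe

section Sparse

open Classical

variable {Γ : Type*} [Group Γ] {I J ι : Type*}

/-- the component at an index -/
noncomputable def cpI (P : I → Prop) [Fintype {a // P a}] (x : LL {a // P a} Γ) (a : I) :
    LL Unit Γ := if h : P a then pr (⟨a, h⟩ : {a // P a}) x else 0

variable {P : I → Prop} [Fintype {a // P a}] {Q : J → Prop} [Fintype {b // Q b}]

theorem cpI_pos (x : LL {a // P a} Γ) (a : I) (h : P a) :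
    cpI P x a = pr (⟨a, h⟩ : {a // P a}) x := dif_pos h

theorem cpI_neg (x : LL {a // P a} Γ) (a : I) (h : ¬ P a) : cpI P x a = 0 := dif_neg h

theorem cpI_ext {x y : LL {a // P a} Γ} (h : ∀ a, P a → cpI P x a = cpI P y a) : x = y := by
  apply ext_pr
  rintro ⟨a, ha⟩
  rw [← cpI_pos, ← cpI_pos, h a ha]

theorem cpI_zero (a : I) : cpI P (0 : LL {a // P a} Γ) a = 0 := by
  unfold cpI
  split_ifs
  · exact map_zero _
  · rfl

theorem cpI_sub (x y : LL {a // P a} Γ) (a : I) : cpI P (x - y) a = cpI P x a - cpI P y a := by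
  by_cases h : P a
  · rw [cpI_pos _ _ h, cpI_pos _ _ h, cpI_pos _ _ h, map_sub]
  · rw [cpI_neg _ _ h, cpI_neg _ _ h, cpI_neg _ _ h, sub_zero]

/-- the operator of a sparse matrix -/
noncomputable def Sp (P : I → Prop) [Fintype {a // P a}] (Q : J → Prop) [Fintype {b // Q b}]
    (K : J → Finset ι) (c : J → ι → I) (A : J → ι → BB Γ) :
    LL {a // P a} Γ →L[ℂ] LL {b // Q b} Γ :=
  Mop fun a b => ∑ k ∈ K b.1, if a.1 = c b.1 k then A b.1 k else 0

theorem cpI_Sp (K : J → Finset ι) (c : J → ι → I) (A : J → ι → BB Γ) (x : LL {a // P a} Γ) (b : J)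
    (hb : Q b) : cpI Q (Sp P Q K c A x) b = ∑ k ∈ K b, A b k (cpI P x (c b k)) := by
  rw [cpI_pos _ _ hb]
  unfold Sp
  rw [pr_Mop]
  have h1 : ∀ a : {a // P a}, (∑ k ∈ K b, if a.1 = c b k then A b k else 0) (pr a x)
      = ∑ k ∈ K b, if a.1 = c b k then A b k (pr a x) else 0 := by
    intro a
    rw [_root_.sum_apply]
    apply Finset.sum_congr rfl
    intro k _
    split_ifs <;> rfl
  rw [Finset.sum_congr rfl fun a _ => h1 a, Finset.sum_comm]
  apply Finset.sum_congr rfl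
  intro k _
  by_cases hP : P (c b k)
  · rw [Finset.sum_eq_single (⟨c b k, hP⟩ : {a // P a}), if_pos rfl, cpI_pos _ _ hP]
    · intro a _ ha
      rw [if_neg]
      intro h
      exact ha (Subtype.ext h)
    · intro h
      exact absurd (Finset.mem_univ _) h
  · rw [cpI_neg _ _ hP, map_zero]
    apply Finset.sum_eq_zero
    intro a _
    rw [if_neg]
    intro h
    exact hP (h ▸ a.2)

theorem eqv_Sp (K : J → Finset ι) (c : J → ι → I) (A : J → ι → BB Γ) (hA : ∀ b k, Eqv (A b k)) :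
    Eqv (Sp P Q K c A) := by
  apply eqv_Mop
  intro a b
  apply Eqv.sum
  intro k _
  split_ifs
  · exact hA _ _
  · exact Eqv.zero

end Sparse

end Pool.Agent.H72.BBG
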